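import Pool.Agent.W536.LM.Stm

/-!
Part GEO of project LM: a chain gives an equivalent complex realisation with a non-Euclidean
distance.
-/

set_option autoImplicit false

open Polynomial W536.LM

namespace W3.LM.Geo

/-- light cone coordinates -/
theorem dd_lc (Z W : Fin 8 → ℂ) (i j : Fin 8) :
    dd (fun v => ![(Z v + W v) / 2, (Z v - W v) / (2 * Complex.I)]) i j =
      (Z i - Z j) * (W i - W j) := by
  have hI : Complex.I ^ 2 = -1 := Complex.I_sq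
  have hI0 : Complex.I ≠ 0 := Complex.I_ne_zero
  simp only [dd, Fin.sum_univ_two, Matrix.cons_val_zero, Matrix.cons_val_one]
  field_simp
  rw [hI]
  ring

/-- the relation in divided form -/
theorem rel_div {L m m' e w w' : ℂ} (hw : w ≠ 0) (hw' : w' ≠ 0) (h : E0 L m m' e w w' = 0) :
    (w + w' - 1) * (m / w + m' / w' - L) = e := by
  unfold E0 at h
  have h2 : (w + w' - 1) * (m / w + m' / w' - L) - e =
      ((w + w' - 1) * (m' * w + m * w' - L * w * w') - e * w * w') / (w * w') := by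
    field_simp
    ring
  rw [h, zero_div] at h2
  exact sub_eq_zero.mp h2

/-- a real number `D = L + m - (L x + m / x)` is not a Euclidean squared distance -/
theorem real_part {L m x D : ℝ} (hx : x ≠ 0) (hne : L * x ^ 2 ≠ m)
    (hD : D = L + m - (L * x + m / x)) (hb : (D - L - m) ^ 2 ≤ 4 * L * m) : False := by
  have h1 : (D - L - m) ^ 2 = (L * x - m / x) ^ 2 + 4 * L * m := by
    rw [hD]
    field_simp
    ring
  have h2 : L * x - m / x ≠ 0 := by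
    intro h
    apply hne
    have h3 : L * x = m / x := sub_eq_zero.mp h
    rw [eq_div_iff hx] at h3
    rw [← h3]
    ring
  have h4 : 0 < (L * x - m / x) ^ 2 := by positivity
  linarith

theorem cauchy (q : Fin 8 → Fin 2 → ℝ) :
    (dd q 6 0 - dd q 6 7 - dd q 0 7) ^ 2 ≤ 4 * dd q 6 7 * dd q 0 7 := by
  simp only [dd, Fin.sum_univ_two]
  set a := q 6 0 - q 7 0 with ha
  set b := q 6 1 - q 7 1 with hb
  set c := q 0 0 - q 7 0 with hc
  set d := q 0 1 - q 7 1 with hd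
  have h1 : q 6 0 - q 0 0 = a - c := by rw [ha, hc]; ring
  have h2 : q 6 1 - q 0 1 = b - d := by rw [hb, hd]; ring
  rw [h1, h2]
  nlinarith [sq_nonneg (a * d - b * c)]

end W3.LM.Geo

namespace W3.LM

open Geo

theorem t_GEO : S_GEO := by
  intro p hL hm x w hw0 hne hw hE hE5
  have hx : (x : ℂ) ≠ 0 := by rw [← hw0]; exact hw 0 (by norm_num)
  have hx' : x ≠ 0 := by exact_mod_cast hx
  have h0 := rel_div (hw 0 (by norm_num)) (hw 1 (by norm_num)) (hE 0 (by norm_num))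
  have h1 := rel_div (hw 1 (by norm_num)) (hw 2 (by norm_num)) (hE 1 (by norm_num))
  have h2 := rel_div (hw 2 (by norm_num)) (hw 3 (by norm_num)) (hE 2 (by norm_num))
  have h3 := rel_div (hw 3 (by norm_num)) (hw 4 (by norm_num)) (hE 3 (by norm_num))
  have h4 := rel_div (hw 4 (by norm_num)) (hw 5 (by norm_num)) (hE 4 (by norm_num))
  have h5 := rel_div (hw 5 (by norm_num)) (hw 0 (by norm_num)) hE5
  have eL : (parOf p).cx.L = ((dd p 6 7 : ℝ) : ℂ) := rfl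
  have em0 : (parOf p).cx.m 0 = ((dd p 0 7 : ℝ) : ℂ) := rfl
  have em1 : (parOf p).cx.m 1 = ((dd p 1 6 : ℝ) : ℂ) := rfl
  have em2 : (parOf p).cx.m 2 = ((dd p 2 7 : ℝ) : ℂ) := rfl
  have em3 : (parOf p).cx.m 3 = ((dd p 3 6 : ℝ) : ℂ) := rfl
  have em4 : (parOf p).cx.m 4 = ((dd p 4 7 : ℝ) : ℂ) := rfl
  have em5 : (parOf p).cx.m 5 = ((dd p 5 6 : ℝ) : ℂ) := rfl
  have ee0 : (parOf p).cx.e 0 = ((dd p 0 1 : ℝ) : ℂ) := rfl
  have ee1 : (parOf p).cx.e 1 = ((dd p 1 2 : ℝ) : ℂ) := rfl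
  have ee2 : (parOf p).cx.e 2 = ((dd p 2 3 : ℝ) : ℂ) := rfl
  have ee3 : (parOf p).cx.e 3 = ((dd p 3 4 : ℝ) : ℂ) := rfl
  have ee4 : (parOf p).cx.e 4 = ((dd p 4 5 : ℝ) : ℂ) := rfl
  have ee5 : (parOf p).cx.e 5 = ((dd p 5 0 : ℝ) : ℂ) := rfl
  have eLr : (parOf p).L = dd p 6 7 := rfl
  have em0r : (parOf p).m 0 = dd p 0 7 := rfl
  rw [eL, em0, ee0] at h0
  rw [eL, em1, ee1] at h1
  rw [eL, em2, ee2] at h2
  rw [eL, em3, ee3] at h3
  rw [eL, em4, ee4] at h4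
  rw [eL, em5, em0, ee5] at h5
  rw [show (0 + 1 : ℕ) = 1 from rfl, em1] at h0
  rw [show (1 + 1 : ℕ) = 2 from rfl, em2] at h1
  rw [show (2 + 1 : ℕ) = 3 from rfl, em3] at h2
  rw [show (3 + 1 : ℕ) = 4 from rfl, em4] at h3
  rw [show (4 + 1 : ℕ) = 5 from rfl, em5] at h4
  rw [eLr, em0r] at hne
  have w0 := hw 0 (by norm_num)
  have w1 := hw 1 (by norm_num)
  have w2 := hw 2 (by norm_num)
  have w3 := hw 3 (by norm_num)
  have w4 := hw 4 (by norm_num)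
  have w5 := hw 5 (by norm_num)
  clear hE hE5 hw eL em0 em1 em2 em3 em4 em5 ee0 ee1 ee2 ee3 ee4 ee5 eLr em0r
  set L : ℂ := ((dd p 6 7 : ℝ) : ℂ) with hLd
  set m0 : ℂ := ((dd p 0 7 : ℝ) : ℂ) with hm0
  set m1 : ℂ := ((dd p 1 6 : ℝ) : ℂ) with hm1
  set m2 : ℂ := ((dd p 2 7 : ℝ) : ℂ) with hm2
  set m3 : ℂ := ((dd p 3 6 : ℝ) : ℂ) with hm3
  set m4 : ℂ := ((dd p 4 7 : ℝ) : ℂ) with hm4
  set m5 : ℂ := ((dd p 5 6 : ℝ) : ℂ) with hm5
  let Z : Fin 8 → ℂ := ![1 - w 0, w 1, 1 - w 2, w 3, 1 - w 4, w 5, 0, 1]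
  let W : Fin 8 → ℂ := ![L - m0 / w 0, m1 / w 1, L - m2 / w 2, m3 / w 3, L - m4 / w 4,
    m5 / w 5, 0, L]
  have Z0 : Z 0 = 1 - w 0 := rfl
  have Z1 : Z 1 = w 1 := rfl
  have Z2 : Z 2 = 1 - w 2 := rfl
  have Z3 : Z 3 = w 3 := rfl
  have Z4 : Z 4 = 1 - w 4 := rfl
  have Z5 : Z 5 = w 5 := rfl
  have Z6 : Z 6 = 0 := rfl
  have Z7 : Z 7 = 1 := rfl
  have W0 : W 0 = L - m0 / w 0 := rfl
  have W1 : W 1 = m1 / w 1 := rfl
  have W2 : W 2 = L - m2 / w 2 := rfl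
  have W3 : W 3 = m3 / w 3 := rfl
  have W4 : W 4 = L - m4 / w 4 := rfl
  have W5 : W 5 = m5 / w 5 := rfl
  have W6 : W 6 = 0 := rfl
  have W7 : W 7 = L := rfl
  refine ⟨fun v => ![(Z v + W v) / 2, (Z v - W v) / (2 * Complex.I)], ?_, ?_⟩
  · intro a
    rw [dd_lc]
    fin_cases a
    · change (Z 0 - Z 1) * (W 0 - W 1) = ((dd p 0 1 : ℝ) : ℂ)
      rw [Z0, Z1, W0, W1, ← h0]; ring
    · change (Z 1 - Z 2) * (W 1 - W 2) = ((dd p 1 2 : ℝ) : ℂ)
      rw [Z1, Z2, W1, W2, ← h1]; ring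
    · change (Z 2 - Z 3) * (W 2 - W 3) = ((dd p 2 3 : ℝ) : ℂ)
      rw [Z2, Z3, W2, W3, ← h2]; ring
    · change (Z 3 - Z 4) * (W 3 - W 4) = ((dd p 3 4 : ℝ) : ℂ)
      rw [Z3, Z4, W3, W4, ← h3]; ring
    · change (Z 4 - Z 5) * (W 4 - W 5) = ((dd p 4 5 : ℝ) : ℂ)
      rw [Z4, Z5, W4, W5, ← h4]; ring
    · change (Z 5 - Z 0) * (W 5 - W 0) = ((dd p 5 0 : ℝ) : ℂ)
      rw [Z5, Z0, W5, W0, ← h5]; ring
    · change (Z 0 - Z 7) * (W 0 - W 7) = m0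
      rw [Z0, Z7, W0, W7]; field_simp; ring
    · change (Z 2 - Z 7) * (W 2 - W 7) = m2
      rw [Z2, Z7, W2, W7]; field_simp; ring
    · change (Z 4 - Z 7) * (W 4 - W 7) = m4
      rw [Z4, Z7, W4, W7]; field_simp; ring
    · change (Z 1 - Z 6) * (W 1 - W 6) = m1
      rw [Z1, Z6, W1, W6]; field_simp; ring
    · change (Z 3 - Z 6) * (W 3 - W 6) = m3
      rw [Z3, Z6, W3, W6]; field_simp; ring
    · change (Z 5 - Z 6) * (W 5 - W 6) = m5
      rw [Z5, Z6, W5, W6]; field_simp; ring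
    · change (Z 6 - Z 7) * (W 6 - W 7) = L
      rw [Z6, Z7, W6, W7]; ring
  · intro q' hq' hcon
    rw [dd_lc, Z6, Z0, W6, W0, hw0, hLd, hm0] at hcon
    have hr : dd q' 6 0 = dd p 6 7 + dd p 0 7 - (dd p 6 7 * x + dd p 0 7 / x) := by
      have h6 : ((dd q' 6 0 : ℝ) : ℂ) =
          ((dd p 6 7 + dd p 0 7 - (dd p 6 7 * x + dd p 0 7 / x) : ℝ) : ℂ) := by
        rw [← hcon]
        push_cast
        field_simp
        ring
      exact_mod_cast h6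
    have e12 : dd q' 6 7 = dd p 6 7 := hq' 12
    have e6 : dd q' 0 7 = dd p 0 7 := hq' 6
    have hcs := cauchy q'
    rw [e12, e6] at hcs
    exact real_part hx' hne hr hcs

end W3.LM
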